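import Mathlib
import Pool.Agent.P.MP_fb43a4_co.Asy.All

set_option autoImplicit false

namespace Pool.Agent.Results.MP_fb43a4_co.Asymptotic

theorem result :
    ∀ ε : ℝ, 0 < ε → ∃ k₀ : ℕ, ∀ (V : Type) [Fintype V] (G : SimpleGraph V),
      (∀ v a b c : V, G.Adj v a → G.Adj v b → G.Adj v c →
          a ≠ b → a ≠ c → b ≠ c → G.Adj a b ∨ G.Adj a c ∨ G.Adj b c) →
      ∀ k : ℕ, k₀ ≤ k → G.Colorable k →
        ∀ L : V → Finset ℕ, (∀ v, (1 + ε) * (k : ℝ) ≤ ((L v).card : ℝ)) →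
          ∃ col : V → ℕ, (∀ v, col v ∈ L v) ∧ ∀ u v, G.Adj u v → col u ≠ col v :=
  Pool.Agent.P.MP_fb43a4_co.Asy.main

end Pool.Agent.Results.MP_fb43a4_co.Asymptotic
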