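import Mathlib
import Pool.Agent.P.MP_fb43a4_co.Fuzzy

set_option autoImplicit false

namespace Pool.Agent.Results.MP_fb43a4_co.FuzzyCircular

/-- The closed interval of the circle `ℝ/ℤ` that runs from `I.1` to `I.2`. -/
def arc (I : ℝ × ℝ) : Set UnitAddCircle :=
  (fun t : ℝ => (t : UnitAddCircle)) '' Set.Icc I.1 I.2

/-- The two ends of that interval. -/
def ends (I : ℝ × ℝ) : Set UnitAddCircle :=
  {(I.1 : UnitAddCircle), (I.2 : UnitAddCircle)}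

/-- Fuzzy circular interval graphs (Chudnovsky and Seymour): a map `φ` from the vertices to a
circle and a family `F` of proper closed intervals, no point being an end of two of them, such
that adjacent vertices lie in a common interval, and two vertices in a common interval are
adjacent unless they sit at its two ends. -/
def IsFuzzyCircularInterval {V : Type} (G : SimpleGraph V) : Prop :=
  ∃ (φ : V → UnitAddCircle) (F : Set (ℝ × ℝ)),
    (∀ I ∈ F, I.1 < I.2 ∧ I.2 < I.1 + 1) ∧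
    (∀ I ∈ F, ∀ J ∈ F, I ≠ J → Disjoint (ends I) (ends J)) ∧
    (∀ u v, G.Adj u v → ∃ I ∈ F, φ u ∈ arc I ∧ φ v ∈ arc I) ∧
    (∀ u v, u ≠ v → ∀ I ∈ F, φ u ∈ arc I → φ v ∈ arc I → {φ u, φ v} ≠ ends I → G.Adj u v)

theorem result :
    ∀ (V : Type) [Fintype V] (G : SimpleGraph V), IsFuzzyCircularInterval G →
      ∀ k : ℕ, G.Colorable k →
        ∀ L : V → Finset ℕ, (∀ v, k ≤ (L v).card) →
          ∃ col : V → ℕ, (∀ v, col v ∈ L v) ∧ ∀ u v, G.Adj u v → col u ≠ col v := by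
  intro V _ G ⟨φ, F, hF, hdis, hadj, hnon⟩
  have hinj : ∀ I ∈ F, ∀ s ∈ Set.Icc I.1 I.2, ∀ t ∈ Set.Icc I.1 I.2,
      (s : UnitAddCircle) = (t : UnitAddCircle) → s = t := by
    intro I hI s hs t ht h
    have h1 : s ∈ Set.Ico I.1 (I.1 + 1) := ⟨hs.1, hs.2.trans_lt (hF I hI).2⟩
    have h2 : t ∈ Set.Ico I.1 (I.1 + 1) := ⟨ht.1, ht.2.trans_lt (hF I hI).2⟩
    exact (AddCircle.coe_eq_coe_iff_of_mem_Ico h1 h2).1 h
  have hl : ∀ I ∈ F, I.1 ∈ Set.Icc I.1 I.2 := fun I hI => ⟨le_rfl, (hF I hI).1.le⟩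
  have hr : ∀ I ∈ F, I.2 ∈ Set.Icc I.1 I.2 := fun I hI => ⟨(hF I hI).1.le, le_rfl⟩
  have hend : ∀ (I J : F) (z : UnitAddCircle), z ∈ ends I.1 → z ∈ ends J.1 → I = J := by
    intro I J z h1 h2
    by_contra hne
    exact Set.disjoint_left.1 (hdis I.1 I.2 J.1 J.2 fun e => hne (Subtype.ext e)) h1 h2
  have main : ∀ (v u w : V) (J : ℝ × ℝ), J ∈ F → ∀ s τ t : ℝ, J.1 ≤ s → s ≤ τ → τ ≤ t →
      t ≤ J.2 → φ v = s → φ u = τ → φ w = t → u ≠ w →
      G.Adj u w ∨ (φ v = J.1 ∧ φ u = J.1 ∧ φ w = J.2) := by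
    intro v u w J hJ s τ t h1 h2 h3 h4 hv hu hw hne
    have hτ : τ ∈ Set.Icc J.1 J.2 := ⟨h1.trans h2, h3.trans h4⟩
    have ht : t ∈ Set.Icc J.1 J.2 := ⟨(h1.trans h2).trans h3, h4⟩
    by_cases he : ({φ u, φ w} : Set UnitAddCircle) = ends J
    · right
      rcases Set.pair_eq_pair_iff.1 he with ⟨e1, e2⟩ | ⟨e1, e2⟩
      · have : τ = J.1 := hinj J hJ τ hτ _ (hl J hJ) (hu.symm.trans e1)
        have hs : s = J.1 := le_antisymm (this ▸ h2) h1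
        exact ⟨hs ▸ hv, e1, e2⟩
      · have e3 : τ = J.2 := hinj J hJ τ hτ _ (hr J hJ) (hu.symm.trans e1)
        have e4 : t = J.1 := hinj J hJ t ht _ (hl J hJ) (hw.symm.trans e2)
        have := (hF J hJ).1
        linarith
    · exact Or.inl (hnon u w hne J hJ ⟨τ, hτ, hu.symm⟩ ⟨t, ht, hw.symm⟩ he)
  refine Pool.Agent.P.MP_fb43a4_co.fuzzy G (ι := F)
    (fun v => {w | w = v ∨ ∃ I ∈ F, ∃ s t : ℝ, I.1 ≤ s ∧ s ≤ t ∧ t ≤ I.2 ∧ φ v = s ∧ φ w = t})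
    (fun I => {v | φ v = I.1.1}) (fun I => {v | φ v = I.1.2}) ?_ ?_ ?_ ?_ ?_ ?_ ?_ ?_ ?_
  · intro I J v h1 h2
    exact hend I J (φ v) (Or.inl h1) (Or.inl h2)
  · intro I J v h1 h2
    exact hend I J (φ v) (Or.inr h1) (Or.inr h2)
  · intro I J v h1 h2
    have := hend I J (φ v) (Or.inl h1) (Or.inr h2)
    subst this
    have := hinj I.1 I.2 _ (hl _ I.2) _ (hr _ I.2) (h1.symm.trans h2)
    exact (hF _ I.2).1.ne this
  · intro v
    exact Or.inl rfl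
  · intro I v hv w hw
    exact Or.inr ⟨I.1, I.2, _, _, le_rfl, le_rfl, (hF _ I.2).1.le, hv, hw⟩
  · intro I v hv w hw
    exact Or.inr ⟨I.1, I.2, _, _, le_rfl, (hF _ I.2).1.le, le_rfl, hv, hw⟩
  · intro I v hv w hw
    exact Or.inr ⟨I.1, I.2, _, _, (hF _ I.2).1.le, le_rfl, le_rfl, hv, hw⟩
  · intro u w huw
    obtain ⟨I, hI, ⟨s, hs, es⟩, ⟨t, ht, et⟩⟩ := hadj u w huw
    rcases le_total s t with h | h
    · exact Or.inl (Or.inr ⟨I, hI, s, t, hs.1, h, ht.2, es.symm, et.symm⟩)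
    · exact Or.inr (Or.inr ⟨I, hI, t, s, ht.1, h, hs.2, et.symm, es.symm⟩)
  · intro v u hu w hw hne
    have fin1 : ∀ (u w : V) (J : ℝ × ℝ) (hJ : J ∈ F),
        G.Adj u w ∨ (φ v = J.1 ∧ φ u = J.1 ∧ φ w = J.2) →
        (G.Adj u w ∨ ∃ i : F, φ v = i.1.1 ∧
          ((φ u = i.1.1 ∧ φ w = i.1.2) ∨ (φ w = i.1.1 ∧ φ u = i.1.2))) ∧
        (G.Adj w u ∨ ∃ i : F, φ v = i.1.1 ∧
          ((φ w = i.1.1 ∧ φ u = i.1.2) ∨ (φ u = i.1.1 ∧ φ w = i.1.2))) := by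
      rintro u w J hJ (h | ⟨h1, h2, h3⟩)
      · exact ⟨Or.inl h, Or.inl h.symm⟩
      · exact ⟨Or.inr ⟨⟨J, hJ⟩, h1, Or.inl ⟨h2, h3⟩⟩, Or.inr ⟨⟨J, hJ⟩, h1, Or.inr ⟨h2, h3⟩⟩⟩
    rcases hu with rfl | ⟨I, hI, s, t, a1, a2, a3, a4, a5⟩
    · rcases hw with rfl | ⟨J, hJ, s', t', b1, b2, b3, b4, b5⟩
      · exact (hne rfl).elim
      · exact (fin1 u w J hJ (main u u w J hJ s' s' t' b1 le_rfl b2 b3 b4 b4 b5 hne)).1
    · rcases hw with rfl | ⟨J, hJ, s', t', b1, b2, b3, b4, b5⟩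
      · exact (fin1 w u I hI (main w w u I hI s s t a1 le_rfl a2 a3 a4 a4 a5 hne.symm)).2
      · have hss : (s : UnitAddCircle) = (s' : UnitAddCircle) := a4.symm.trans b4
        rcases le_total (t - s) (t' - s') with h | h
        · refine (fin1 u w J hJ (main v u w J hJ s' (s' + (t - s)) t' b1 (by linarith)
            (by linarith) b3 b4 ?_ b5 hne)).1
          rw [a5, AddCircle.coe_add, AddCircle.coe_sub, ← hss]
          abel
        · refine (fin1 w u I hI (main v w u I hI s (s + (t' - s')) t a1 (by linarith)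
            (by linarith) a3 a4 ?_ a5 hne.symm)).2
          rw [b5, AddCircle.coe_add, AddCircle.coe_sub, hss]
          abel

end Pool.Agent.Results.MP_fb43a4_co.FuzzyCircular
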