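import Mathlib
import Pool.Agent.P.MP_fb43a4_co.NearBip

set_option autoImplicit false

namespace Pool.Agent.Results.MP_fb43a4_co.NearlyBipartite

/-- The list edge colouring conjecture for nearly bipartite multigraphs. The multigraph has vertex
type `V`, finite edge type `E` and end map `ends`; `G` is its line graph; deleting the vertex `s`
leaves a bipartite multigraph with sides given by `side`. -/
theorem result :
    ∀ (V E : Type) [Fintype E] (ends : E → Sym2 V), (∀ e, ¬ (ends e).IsDiag) →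
      (∃ (s : V) (side : V → Bool),
        ∀ e x y, ends e = s(x, y) → x ≠ s → y ≠ s → side x ≠ side y) →
      ∀ G : SimpleGraph E, (∀ e f, G.Adj e f ↔ e ≠ f ∧ ∃ v, v ∈ ends e ∧ v ∈ ends f) →
      ∀ k : ℕ, G.Colorable k →
        ∀ L : E → Finset ℕ, (∀ e, k ≤ (L e).card) →
          ∃ col : E → ℕ, (∀ e, col e ∈ L e) ∧ ∀ e f, G.Adj e f → col e ≠ col f := by
  intro V E _ ends hloop ⟨s, side, hs⟩ G hG k ⟨φ⟩ L hL
  have hex : ∀ e, ∃ r c : V, ends e = s(r, c) ∧ (r ≠ s → side r = true) ∧
      (c ≠ s → side c = false) := by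
    intro e
    obtain ⟨x, y, hxy⟩ : ∃ x y, ends e = s(x, y) := by
      induction ends e using Sym2.ind with
      | _ x y => exact ⟨x, y, rfl⟩
    have hyx : ends e = s(y, x) := hxy.trans Sym2.eq_swap
    by_cases hx : x = s
    · cases h : side y
      · exact ⟨x, y, hxy, fun h' => (h' hx).elim, fun _ => h⟩
      · exact ⟨y, x, hyx, fun _ => h, fun h' => (h' hx).elim⟩
    · by_cases hy : y = s
      · cases h : side x
        · exact ⟨y, x, hyx, fun h' => (h' hy).elim, fun _ => h⟩
        · exact ⟨x, y, hxy, fun _ => h, fun h' => (h' hy).elim⟩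
      · have h1 := hs e x y hxy hx hy
        cases h : side x
        · refine ⟨y, x, hyx, fun _ => ?_, fun _ => h⟩
          cases h' : side y
          · exact (h1 (h.trans h'.symm)).elim
          · rfl
        · refine ⟨x, y, hxy, fun _ => h, fun _ => ?_⟩
          cases h' : side y
          · rfl
          · exact (h1 (h.trans h'.symm)).elim
  choose row col h1 h2 h3 using hex
  have hl : ∀ e, row e ≠ col e := by
    intro e h
    apply hloop e
    rw [h1 e, Sym2.mk_isDiag_iff]
    exact h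
  have hmem : ∀ e v, v ∈ ends e ↔ v = row e ∨ v = col e := by
    intro e v
    rw [h1 e, Sym2.mem_iff]
  have hcross : ∀ e f, row e = col f → row e = s ∧ col f = s := by
    intro e f h
    have h4 : row e = s := by
      by_contra hne
      have h5 := h2 e hne
      have h6 := h3 f (h ▸ hne)
      rw [h, h6] at h5
      exact Bool.false_ne_true h5
    exact ⟨h4, h ▸ h4⟩
  obtain ⟨ψ, hψ1, hψ2⟩ := Pool.Agent.P.MP_fb43a4_co.NearBip.main row col s hl φ (by
    intro e f hne h
    apply φ.valid
    refine (hG e f).2 ⟨hne, ?_⟩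
    rcases h with h | h | ⟨h, h'⟩
    · exact ⟨row e, (hmem _ _).2 (Or.inl rfl), (hmem _ _).2 (Or.inl h)⟩
    · exact ⟨col e, (hmem _ _).2 (Or.inr rfl), (hmem _ _).2 (Or.inr h)⟩
    · exact ⟨s, (hmem _ _).2 (Or.inr h.symm), (hmem _ _).2 (Or.inl h'.symm)⟩) L hL
  refine ⟨ψ, hψ1, fun e f hadj => ?_⟩
  obtain ⟨hne, v, hv1, hv2⟩ := (hG e f).1 hadj
  rcases (hmem _ _).1 hv1 with rfl | rfl <;> rcases (hmem _ _).1 hv2 with h | h
  · exact hψ2 e f hne (Or.inl h)
  · have := hcross e f h
    exact (hψ2 f e hne.symm (Or.inr (Or.inr ⟨this.2, this.1⟩))).symm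
  · have := hcross f e h.symm
    exact hψ2 e f hne (Or.inr (Or.inr ⟨this.2, this.1⟩))
  · exact hψ2 e f hne (Or.inr (Or.inl h))

end Pool.Agent.Results.MP_fb43a4_co.NearlyBipartite
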