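import Mathlib
import Pool.Agent.P.MP_fb43a4_co.Fuzzy

set_option autoImplicit false

namespace Pool.Agent.Results.MP_fb43a4_co.OutClique

/-- 1-perfectly orientable graphs: the edges can be oriented so that the out-neighbours of
every vertex are pairwise adjacent. -/
def IsOnePerfectlyOrientable {V : Type} (G : SimpleGraph V) : Prop :=
  ∃ D : V → V → Prop,
    (∀ u v, G.Adj u v ↔ D u v ∨ D v u) ∧ (∀ u v, D u v → ¬ D v u) ∧
    ∀ v a b, D v a → D v b → a ≠ b → G.Adj a b

theorem result :
    ∀ (V : Type) [Fintype V] (G : SimpleGraph V), IsOnePerfectlyOrientable G →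
      ∀ k : ℕ, G.Colorable k →
        ∀ L : V → Finset ℕ, (∀ v, k ≤ (L v).card) →
          ∃ col : V → ℕ, (∀ v, col v ∈ L v) ∧ ∀ u v, G.Adj u v → col u ≠ col v := by
  intro V _ G ⟨D, h1, _, h3⟩
  refine Pool.Agent.P.MP_fb43a4_co.fuzzy G (ι := Empty) (fun v => {w | w = v ∨ D v w})
    (fun i => i.elim) (fun i => i.elim) (fun i => i.elim) (fun i => i.elim) (fun i => i.elim)
    (fun v => Or.inl rfl) (fun i => i.elim) (fun i => i.elim) (fun i => i.elim) ?_ ?_
  · intro u w h
    rcases (h1 u w).1 h with h | h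
    · exact Or.inl (Or.inr h)
    · exact Or.inr (Or.inr h)
  · rintro v u (rfl | hu) w (rfl | hw) hne
    · exact (hne rfl).elim
    · exact Or.inl ((h1 _ _).2 (Or.inl hw))
    · exact Or.inl ((h1 _ _).2 (Or.inr hu))
    · exact Or.inl (h3 v u w hu hw hne)

end Pool.Agent.Results.MP_fb43a4_co.OutClique
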